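import Pool.Agent.H215R3.FS.Pair
import Pool.Agent.H215R3.FS.Count
import Pool.Agent.H215R3.FS.Dim
import Pool.Agent.H215R3.FS.FFin
import Pool.Agent.H215R3.FS.Stmt

/-!
# F-signatures of `ℚ`-Gorenstein pairs do not approximate the F-signature

`R = DR p` is the complete local ring of the generic `2 × 3` determinantal variety over the field
with `p` elements: the ring of all power series in `x_1, x_2, y_1, y_2, y_3` all of whose monomials
have the same degree in the `x`'s as in the `y`'s. It has F-signature `11/24`, but every effective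
`ℚ`-divisor `Δ` such that `K_X + Δ` is `ℚ`-Cartier of index prime to `p` has `s(R, Δ) ≤ 1/4`.
-/

set_option autoImplicit false

namespace Pool.Agent.Results.MP_ccce09_ag.FSigGap

open Pool.Agent.H215R3.FS MvPowerSeries

/-- the residue field -/
lemma residue (p : ℕ) [Fact p.Prime] :
    Nonempty (IsLocalRing.ResidueField (DR p) ≃+* ZMod p) := by
  let f : DR p →+* ZMod p := (constantCoeff (σ := Fin 5) (R := ZMod p)).comp (detRing p).subtype
  have hf : Function.Surjective f := by
    intro a
    refine ⟨⟨C a, ?_⟩, ?_⟩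
    · rw [mem_detRing]
      have := hasWt_monomial (p := p) 0 a
      simpa [wt] using this
    · change constantCoeff (C a : PS p 5) = a
      exact constantCoeff_C a
  have hk : RingHom.ker f = IsLocalRing.maximalIdeal (DR p) := by
    ext x
    rw [RingHom.mem_ker, mem_max]
    rfl
  exact ⟨(Ideal.quotEquivOfEq hk.symm).trans (RingHom.quotientKerEquivOfSurjective hf)⟩

theorem result (p : ℕ) [Fact p.Prime] :
    ∃ (R : Type) (_ : CommRing R) (_ : IsDomain R) (_ : IsLocalRing R) (_ : CharP R p),
      Nonempty (R ≃+* DR p) ∧ IsNice R p 4 ∧ HasFSignature R p 4 (11 / 24) ∧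
      ∀ (Δ : PrimeDivisor R →₀ ℚ) (hΔ : 0 ≤ Δ), IsLogQGorenstein p 4 Δ →
        ∀ t : ℝ, HasFSigPair R p 4 Δ hΔ t → t ≤ 1 / 4 := by
  refine ⟨DR p, inferInstance, inferInstance, inferInstance, inferInstance,
    ⟨RingEquiv.refl _⟩, ⟨inferInstance, inferInstance, frobenius_finite, dim_DR, residue p⟩, ?_, ?_⟩
  · unfold HasFSignature
    refine (tendsto_card p (Fact.out : p.Prime).two_le).congr ?_
    intro e
    rw [freeRank_eq]
  · rintro Δ hΔ ⟨K, hK, hQ⟩ t ht
    exact pair_bound K (isCanonicalDivisor_of hK) Δ hΔ hQ t ht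

end Pool.Agent.Results.MP_ccce09_ag.FSigGap
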